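import Pool.Agent.H43.TC.Targets2

set_option autoImplicit false

namespace Pool.Agent.H45.TE

open Pool.Agent.H43.TC

lemma sum_shift {G : Type} [AddCommGroup G] [Fintype G] (f : G → ℕ) (g : G) :
    ∑ x, (f (x + g) + f (x - g)) = 2 * ∑ x, f x := by
  rw [Finset.sum_add_distrib]
  have h1 : ∑ x, f (x + g) = ∑ x, f x := Equiv.sum_comp (Equiv.addRight g) f
  have h2 : ∑ x, f (x - g) = ∑ x, f x := Equiv.sum_comp (Equiv.subRight g) f
  rw [h1, h2]; ring

lemma sum_nxt {G : Type} [AddCommGroup G] [Fintype G] {k : ℕ} (s : Fin k → G) (c : G → Bool)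
    (j : ℕ) : ∑ x, nxt s c j x = 2 * k * ∑ x, walks s c false j x := by
  unfold nxt
  rw [Finset.sum_comm]
  simp only [sum_shift]
  simp; ring

lemma sum_nxt_split {G : Type} [AddCommGroup G] [Fintype G] {k : ℕ} (s : Fin k → G)
    (c : G → Bool) (j : ℕ) : ∑ x, nxt s c j x =
      (∑ x, (if c x = true then nxt s c j x else 0)) + ∑ x, walks s c false (j + 1) x := by
  rw [← Finset.sum_add_distrib]
  apply Finset.sum_congr rfl
  intro x _
  cases h : c x <;> simp [walks, nxt, h]

theorem idn : T_IDN := by
  intro G _ _ k s c t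
  induction t with
  | zero =>
    rw [Finset.card_filter]
    simp only [walks, Finset.range_zero, Finset.sum_empty, pow_zero, one_mul, add_zero]
  | succ t ih =>
    rw [Finset.sum_range_succ]
    have h1 : ∀ j ∈ Finset.range t, (2 * k) ^ (t + 1 - 1 - j) *
        ∑ x, (if c x = true then nxt s c j x else 0) = 2 * k * ((2 * k) ^ (t - 1 - j) *
        ∑ x, (if c x = true then nxt s c j x else 0)) := by
      intro j hj
      have hj' := Finset.mem_range.1 hj
      have : t + 1 - 1 - j = (t - 1 - j) + 1 := by omega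
      rw [this, pow_succ]; ring
    rw [Finset.sum_congr rfl h1, ← Finset.mul_sum]
    have h2 := sum_nxt s c t
    have h3 := sum_nxt_split s c t
    have h4 : t + 1 - 1 - t = 0 := by omega
    rw [h4, pow_zero, one_mul, pow_succ']
    have h5 : 2 * k * (∑ x, walks s c false t x) + 2 * k * ∑ j ∈ Finset.range t, ((2 * k) ^ (t - 1 - j) *
        ∑ x, (if c x = true then nxt s c j x else 0)) =
        2 * k * (2 * k) ^ t * (Finset.univ.filter (fun x => c x = false)).card := by
      rw [← mul_add, ih]; ring
    omega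

end Pool.Agent.H45.TE
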