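import Pool.Agent.H43.TC.Targets2

set_option autoImplicit false

namespace Pool.Agent.H45.TE

open Pool.Agent.H43.TC

lemma off_neg {k : ℕ} (z : Fin k → ℤ) : off k (-z) = off k z := by
  simp [off]

lemma walks_neg {k : ℕ} : ∀ (j : ℕ) (z : Fin k → ℤ),
    walks un (off k) true j (-z) = walks un (off k) true j z
  | 0, z => by simp only [walks, off_neg]
  | j + 1, z => by
    simp only [walks, off_neg]
    congr 1
    apply Finset.sum_congr rfl
    intro i _
    have h1 : -z + un i = -(z - un i) := by abel
    have h2 : -z - un i = -(z + un i) := by abel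
    rw [h1, h2, walks_neg j, walks_neg j, add_comm]

lemma off_perm {k : ℕ} (σ : Equiv.Perm (Fin k)) (z : Fin k → ℤ) :
    off k (z ∘ σ) = off k z := by
  unfold off
  congr 1
  apply propext
  apply not_congr
  constructor
  · intro h
    funext i
    have := congrFun h (σ.symm i)
    simpa using this
  · rintro rfl
    rfl

lemma un_perm {k : ℕ} (σ : Equiv.Perm (Fin k)) (i : Fin k) :
    (un i : Fin k → ℤ) = un (σ i) ∘ σ := by
  funext l
  simp only [un, Function.comp, Pi.single_apply]
  by_cases h : l = i
  · subst h; simp
  · have h2 : ¬ σ l = σ i := fun h' => h (σ.injective h')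
    simp [h, h2]

lemma walks_perm {k : ℕ} (σ : Equiv.Perm (Fin k)) : ∀ (j : ℕ) (z : Fin k → ℤ),
    walks un (off k) true j (z ∘ σ) = walks un (off k) true j z
  | 0, z => by simp only [walks, off_perm]
  | j + 1, z => by
    simp only [walks, off_perm]
    congr 1
    rw [← Equiv.sum_comp σ (fun i => walks un (off k) true j (z + un i) +
      walks un (off k) true j (z - un i))]
    apply Finset.sum_congr rfl
    intro i _
    have h1 : z ∘ σ + un i = (z + un (σ i)) ∘ σ := by
      rw [un_perm σ i]; rfl
    have h2 : z ∘ σ - un i = (z - un (σ i)) ∘ σ := by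
      rw [un_perm σ i]; rfl
    rw [h1, h2, walks_perm σ j, walks_perm σ j]

lemma walks_un {k : ℕ} (j : ℕ) (i i' : Fin k) :
    walks un (off k) true j (un i) = walks un (off k) true j (un i') := by
  have h := walks_perm (Equiv.swap i i') j (un i' : Fin k → ℤ)
  rw [← h]
  congr 1
  have h2 := un_perm (Equiv.swap i i') i
  rw [h2]
  simp

theorem sya : T_SYA := by
  intro k j i
  have h : 2 * k * walks un (off k) true j (un i) = avoid k (j + 1) := by
    have h1 : ∀ l : Fin k, (walks un (off k) true j (un l) + walks un (off k) true j (-un l)) =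
        2 * walks un (off k) true j (un i) := by
      intro l
      rw [walks_neg, walks_un j l i]; ring
    simp only [avoid, h1]
    simp; ring
  exact ⟨h, by rw [walks_neg]; exact h⟩

end Pool.Agent.H45.TE
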