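import Pool.Agent.H43.TC.Targets2

set_option autoImplicit false

namespace Pool.Agent.H45.TE

open Pool.Agent.H43.TC

/-- one step: colour of the end -/
lemma walks_one {G : Type} [AddCommGroup G] {k : ℕ} (s : Fin k → G) (c : G → Bool) (b : Bool)
    (x : G) : walks s c b 1 x = if c x = b then
      ∑ i : Fin k, ((if c (x + s i) = b then 1 else 0) + (if c (x - s i) = b then 1 else 0))
      else 0 := by
  simp [walks]

lemma edg_one {G : Type} [AddCommGroup G] [Fintype G] (c : G → Bool) (g : G) :
    2 * (Finset.univ.filter (fun x => c x = true)).card +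
      ∑ x, (if c x = false then ((if c (x + g) = false then 1 else 0) +
        (if c (x - g) = false then 1 else 0)) else 0) =
      2 * (Finset.univ.filter (fun x => c x = false)).card +
      ∑ x, (if c x = true then ((if c (x + g) = true then 1 else 0) +
        (if c (x - g) = true then 1 else 0)) else 0) := by
  have e1 : ∀ f : G → ℕ, ∑ x, f (x + g) = ∑ x, f x := fun f => Equiv.sum_comp (Equiv.addRight g) f
  have e2 : ∀ f : G → ℕ, ∑ x, f (x - g) = ∑ x, f x := fun f => Equiv.sum_comp (Equiv.subRight g) f
  have k1 : ∀ b : Bool, ∑ x, (if c x = b then ((if c (x + g) = b then 1 else 0) +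
        (if c (x - g) = b then 1 else 0)) else 0) =
      2 * ∑ x, (if c x = b ∧ c (x + g) = b then 1 else 0) := by
    intro b
    have h1 : ∑ x, (if c x = b ∧ c (x - g) = b then 1 else 0) =
        ∑ x, (if c x = b ∧ c (x + g) = b then 1 else 0) := by
      rw [← e1 (fun x => if c x = b ∧ c (x - g) = b then 1 else 0)]
      apply Finset.sum_congr rfl
      intro x _
      simp [and_comm]
    rw [two_mul]
    nth_rewrite 1 [← h1]
    rw [← Finset.sum_add_distrib]
    apply Finset.sum_congr rfl
    intro x _
    by_cases h : c x = b
    · simp [h]; ring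
    · simp [h]
  have k2 : ∀ b : Bool, (Finset.univ.filter (fun x => c x = b)).card =
      ∑ x, (if c x = b ∧ c (x + g) = b then 1 else 0) +
      ∑ x, (if c x = b ∧ c (x + g) = !b then 1 else 0) := by
    intro b
    rw [Finset.card_filter, ← Finset.sum_add_distrib]
    apply Finset.sum_congr rfl
    intro x _
    cases c x <;> cases c (x + g) <;> cases b <;> simp
  have k3 : ∑ x, (if c x = true ∧ c (x + g) = !true then 1 else 0) +
      ∑ x, (if c x = true ∧ c (x + g) = true then 1 else 0) =
      ∑ x, (if c x = false ∧ c (x + g) = !false then 1 else 0) +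
      ∑ x, (if c x = true ∧ c (x + g) = true then 1 else 0) := by
    rw [← Finset.sum_add_distrib, ← Finset.sum_add_distrib]
    rw [show ∑ x, ((if c x = true ∧ c (x + g) = !true then 1 else 0) +
      (if c x = true ∧ c (x + g) = true then 1 else 0)) = ∑ x, (if c x = true then 1 else 0) from ?_,
      show ∑ x, ((if c x = false ∧ c (x + g) = !false then 1 else 0) +
      (if c x = true ∧ c (x + g) = true then 1 else 0)) = ∑ x, (if c (x + g) = true then 1 else 0)
        from ?_]
    · exact (e1 (fun x => if c x = true then 1 else 0)).symm
    · apply Finset.sum_congr rfl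
      intro x _
      cases c x <;> cases c (x + g) <;> simp
    · apply Finset.sum_congr rfl
      intro x _
      cases c x <;> cases c (x + g) <;> simp
  rw [k1, k1, k2 true, k2 false]
  omega

lemma walks_le {G : Type} [AddCommGroup G] {k : ℕ} (s : Fin k → G) (c : G → Bool) (b : Bool) :
    ∀ (t : ℕ) (x : G), walks s c b t x ≤ (2 * k) ^ t * (if c x = b then 1 else 0)
  | 0, x => by simp [walks]
  | t + 1, x => by
    by_cases h : c x = b
    · simp only [walks, h, if_true]
      calc ∑ i : Fin k, (walks s c b t (x + s i) + walks s c b t (x - s i))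
          ≤ ∑ i : Fin k, ((2 * k) ^ t + (2 * k) ^ t) := by
            apply Finset.sum_le_sum
            intro i _
            apply add_le_add
            · refine (walks_le s c b t _).trans ?_
              split_ifs <;> simp
            · refine (walks_le s c b t _).trans ?_
              split_ifs <;> simp
        _ = (2 * k) ^ (t + 1) * 1 := by simp; ring
    · simp [walks, h]

lemma walks_succ_le {G : Type} [AddCommGroup G] {k : ℕ} (s : Fin k → G) (c : G → Bool)
    (b : Bool) (t : ℕ) (x : G) : walks s c b (t + 1) x ≤ (2 * k) ^ t * walks s c b 1 x := by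
  rw [walks_one]
  by_cases h : c x = b
  · simp only [walks, h, if_true, Finset.mul_sum]
    apply Finset.sum_le_sum
    intro i _
    rw [mul_add]
    exact add_le_add (walks_le s c b t _) (walks_le s c b t _)
  · simp [walks, h]

theorem edg : T_EDG := by
  intro G _ _ k s c t
  refine ⟨?_, ?_⟩
  · have h : ∀ b, ∑ x, walks s c b 1 x = ∑ i : Fin k, ∑ x, (if c x = b then
        ((if c (x + s i) = b then 1 else 0) + (if c (x - s i) = b then 1 else 0)) else 0) := by
      intro b
      rw [Finset.sum_comm]
      apply Finset.sum_congr rfl
      intro x _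
      rw [walks_one]
      by_cases h : c x = b
      · simp [h]
      · simp [h]
    have h2 : ∑ i : Fin k, (2 * (Finset.univ.filter (fun x => c x = true)).card +
      ∑ x, (if c x = false then ((if c (x + s i) = false then 1 else 0) +
        (if c (x - s i) = false then 1 else 0)) else 0)) =
        ∑ i : Fin k, (2 * (Finset.univ.filter (fun x => c x = false)).card +
      ∑ x, (if c x = true then ((if c (x + s i) = true then 1 else 0) +
        (if c (x - s i) = true then 1 else 0)) else 0)) :=
      Finset.sum_congr rfl (fun i _ => edg_one c (s i))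
    rw [Finset.sum_add_distrib, Finset.sum_add_distrib, ← h, ← h] at h2
    simp only [Finset.sum_const, Finset.card_univ, Fintype.card_fin, smul_eq_mul] at h2
    linarith
  · intro b
    rw [Finset.mul_sum]
    exact Finset.sum_le_sum (fun x _ => walks_succ_le s c b t x)

end Pool.Agent.H45.TE
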