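import Pool.Agent.H43.TC.Targets2

set_option autoImplicit false

namespace Pool.Agent.H45.TE

open Pool.Agent.H43.TC

/-- the adjacency matrix of the path -/
def adjm (m : ℕ) : Matrix (Fin m) (Fin m) ℕ :=
  Matrix.of fun a b : Fin m => if (a : ℕ) + 1 = b ∨ (b : ℕ) + 1 = a then 1 else 0

/-- walks in the path -/
def pw (m t : ℕ) (z : ℤ) : ℕ :=
  walks (fun _ : Fin 1 => (1 : ℤ)) (fun z => decide (0 ≤ z ∧ z < m)) true t z

lemma pw_out (m t : ℕ) (z : ℤ) (h : ¬ (0 ≤ z ∧ z < m)) : pw m t z = 0 := by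
  cases t <;> simp [pw, walks, h]

lemma pw_succ (m t : ℕ) (i : Fin m) :
    pw m (t + 1) ((i : ℕ) : ℤ) = pw m t (((i : ℕ) : ℤ) + 1) + pw m t (((i : ℕ) : ℤ) - 1) := by
  have hi : (0 : ℤ) ≤ ((i : ℕ) : ℤ) ∧ ((i : ℕ) : ℤ) < m := ⟨by omega, by exact_mod_cast i.2⟩
  simp [pw, walks, hi]

lemma sum_up (m : ℕ) (f : ℤ → ℕ) (hf : ∀ z, ¬ (0 ≤ z ∧ z < (m : ℤ)) → f z = 0) (w : ℤ) :
    (∑ l : Fin m, if (((l : ℕ) : ℤ) = w) then f ((l : ℕ) : ℤ) else 0) = f w := by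
  by_cases hw : 0 ≤ w ∧ w < (m : ℤ)
  · obtain ⟨n, rfl⟩ := Int.eq_ofNat_of_zero_le hw.1
    have hn : n < m := by exact_mod_cast hw.2
    rw [Finset.sum_eq_single (⟨n, hn⟩ : Fin m)]
    · simp
    · intro b _ hb
      rw [if_neg]
      intro h
      apply hb
      apply Fin.ext
      have : (b : ℕ) = n := by exact_mod_cast h
      exact this
    · intro h; exact absurd (Finset.mem_univ _) h
  · rw [hf w hw]
    apply Finset.sum_eq_zero
    intro l _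
    rw [if_neg]
    intro h
    apply hw
    rw [← h]
    exact ⟨by omega, by exact_mod_cast l.2⟩

lemma row (m t : ℕ) : ∀ i : Fin m, pw m t ((i : ℕ) : ℤ) = ∑ j, (adjm m ^ t) i j := by
  induction t with
  | zero =>
    intro i
    have hi : (0 : ℤ) ≤ ((i : ℕ) : ℤ) ∧ ((i : ℕ) : ℤ) < m := ⟨by omega, by exact_mod_cast i.2⟩
    simp [pw, walks, hi, Matrix.one_apply]
  | succ t ih =>
    intro i
    rw [pw_succ, pow_succ']
    simp only [Matrix.mul_apply]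
    rw [Finset.sum_comm]
    simp only [← Finset.mul_sum, ← ih]
    rw [← sum_up m (pw m t) (fun z hz => pw_out m t z hz) (((i : ℕ) : ℤ) + 1),
      ← sum_up m (pw m t) (fun z hz => pw_out m t z hz) (((i : ℕ) : ℤ) - 1),
      ← Finset.sum_add_distrib]
    apply Finset.sum_congr rfl
    intro l _
    simp only [adjm, Matrix.of_apply]
    by_cases h1 : (i : ℕ) + 1 = l
    · have h2 : ((l : ℕ) : ℤ) = ((i : ℕ) : ℤ) + 1 := by omega
      have h3 : ¬ ((l : ℕ) : ℤ) = ((i : ℕ) : ℤ) - 1 := by omega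
      rw [if_pos (Or.inl h1), if_pos h2, if_neg h3]; ring
    · have h2 : ¬ ((l : ℕ) : ℤ) = ((i : ℕ) : ℤ) + 1 := by omega
      by_cases h3 : (l : ℕ) + 1 = i
      · have h4 : ((l : ℕ) : ℤ) = ((i : ℕ) : ℤ) - 1 := by omega
        rw [if_pos (Or.inr h3), if_neg h2, if_pos h4]; ring
      · have h4 : ¬ ((l : ℕ) : ℤ) = ((i : ℕ) : ℤ) - 1 := by omega
        rw [if_neg h2, if_neg h4, if_neg (fun h => h.elim h1 h3)]; ring

theorem adj : T_ADJ := by
  intro m t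
  have h : ∀ i : Fin m, ∑ j, (adjm m ^ t) i j = pw m t ((i : ℕ) : ℤ) := fun i => (row m t i).symm
  show pathWalks m t = ∑ i : Fin m, ∑ j : Fin m, (adjm m ^ t) i j
  simp only [h]
  rw [pathWalks, Finset.sum_range]
  rfl

end Pool.Agent.H45.TE
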